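import Mathlib

/-!
# MP_025584_ag

For `f(x,y) = y ((xy+2)^2 + 1)` the value `0` is an asymptotic `ρ_a`-nonregular value for every
centre `a`, although `f` is (even globally) a trivial smooth fibration.
-/

namespace Pool.Agent.Results.MP_025584_ag.TrivialAtInfinity

open MvPolynomial Filter Topology
open scoped Manifold ContDiff

/-- A smooth trivialisation of `f : f⁻¹(U) \ K → U`: a smooth manifold `F` and mutually inverse
smooth maps `f⁻¹(U) \ K → U × F`, `x ↦ (f x, φ x)`, and `ψ : U × F → f⁻¹(U) \ K`. -/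
structure SmoothTriv {n : ℕ} (f : (Fin n → ℝ) → ℝ) (K : Set (Fin n → ℝ)) (U : Set ℝ) where
  /-- dimension of the fibre -/
  m : ℕ
  /-- the fibre -/
  F : Type
  [top : TopologicalSpace F]
  [t2 : T2Space F]
  [sc : SecondCountableTopology F]
  [charted : ChartedSpace (EuclideanSpace ℝ (Fin m)) F]
  [mfd : IsManifold (𝓡 m) ∞ F]
  /-- the fibre coordinate -/
  φ : (Fin n → ℝ) → F
  /-- the inverse -/
  ψ : ℝ × F → (Fin n → ℝ)
  φ_smooth : ContMDiffOn 𝓘(ℝ, Fin n → ℝ) (𝓡 m) ∞ φ (f ⁻¹' U \ K)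
  ψ_smooth : ContMDiffOn (𝓘(ℝ, ℝ).prod (𝓡 m)) 𝓘(ℝ, Fin n → ℝ) ∞ ψ (U ×ˢ Set.univ)
  maps : ∀ s ∈ U, ∀ y, ψ (s, y) ∉ K ∧ f (ψ (s, y)) = s
  left_inv : ∀ x ∈ f ⁻¹' U \ K, ψ (f x, φ x) = x
  right_inv : ∀ s ∈ U, ∀ y, φ (ψ (s, y)) = y

/-- `f` is topologically trivial at infinity at `t₀`. -/
def TrivAtInfinity {n : ℕ} (f : (Fin n → ℝ) → ℝ) (t₀ : ℝ) : Prop :=
  ∃ K : Set (Fin n → ℝ), IsCompact K ∧ ∃ δ > 0, ∀ t ∈ Set.Ioo (t₀ - δ) (t₀ + δ),
    ∃ U : Set ℝ, IsOpen U ∧ t ∈ U ∧ U ⊆ Set.Ioo (t₀ - δ) (t₀ + δ) ∧ Nonempty (SmoothTriv f K U)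

/-- The set of bifurcation values at infinity of a polynomial function. -/
def Binf {n : ℕ} (p : MvPolynomial (Fin n) ℝ) : Set ℝ :=
  {t₀ | ¬ TrivAtInfinity (fun x => eval x p) t₀}

/-- The Milnor set `M_a(f)`. -/
def Milnor {n : ℕ} (p : MvPolynomial (Fin n) ℝ) (a : Fin n → ℝ) : Set (Fin n → ℝ) :=
  {x | ¬ LinearIndependent ℝ ![fun i => eval x (pderiv i p), x - a]}

/-- The set `S_a(f)` of asymptotic `ρ_a`-nonregular values. -/
def S {n : ℕ} (p : MvPolynomial (Fin n) ℝ) (a : Fin n → ℝ) : Set ℝ :=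
  {t₀ | ∃ x : ℕ → (Fin n → ℝ), (∀ j, x j ∈ Milnor p a) ∧
    Tendsto (fun j => ‖x j‖) atTop atTop ∧ Tendsto (fun j => eval (x j) p) atTop (𝓝 t₀)}

/-- The set `S_∞(f)`. -/
def Sinf {n : ℕ} (p : MvPolynomial (Fin n) ℝ) : Set ℝ := ⋂ a, S p a

/-- `f(x, y) = y ((xy + 2)^2 + 1)` -/
noncomputable def p₀ : MvPolynomial (Fin 2) ℝ := X 1 * ((X 0 * X 1 + 2) ^ 2 + 1)

/-- `g(u) = (u + 2)^2 + 1` -/
def g (u : ℝ) : ℝ := (u + 2) ^ 2 + 1

theorem g_pos (u : ℝ) : 0 < g u := by unfold g; positivity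

theorem g_ne (u : ℝ) : g u ≠ 0 := (g_pos u).ne'

theorem eval_p₀ (v : Fin 2 → ℝ) : eval v p₀ = v 1 * g (v 0 * v 1) := by
  simp [p₀, g]

theorem pderiv_two (i : Fin 2) : pderiv i (2 : MvPolynomial (Fin 2) ℝ) = 0 := by
  rw [show (2 : MvPolynomial (Fin 2) ℝ) = C 2 from (map_ofNat C 2).symm]
  exact pderiv_C

theorem eval_p₀_x (v : Fin 2 → ℝ) :
    eval v (pderiv 0 p₀) = v 1 * (2 * (v 0 * v 1 + 2) * v 1) := by
  simp [p₀, Derivation.leibniz, pderiv_X, Derivation.leibniz_pow, pderiv_two]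
  left
  ring

theorem eval_p₀_y (v : Fin 2 → ℝ) :
    eval v (pderiv 1 p₀) = g (v 0 * v 1) + v 1 * (2 * (v 0 * v 1 + 2) * v 0) := by
  simp [p₀, g, Derivation.leibniz, pderiv_X, Derivation.leibniz_pow, pderiv_two]
  ring

/-- the global trivialisation -/
noncomputable def triv (U : Set ℝ) : SmoothTriv (fun x => eval x p₀) ∅ U where
  m := 1
  F := EuclideanSpace ℝ (Fin 1)
  φ := fun v => WithLp.toLp 2 (fun _ => v 0 / g (v 0 * v 1))
  ψ := fun q => ![q.2 0 * g (q.1 * q.2 0), q.1 / g (q.1 * q.2 0)]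
  φ_smooth := by
    rw [contMDiffOn_iff_contDiffOn]
    apply ContDiff.contDiffOn
    apply (PiLp.contDiff_toLp).comp
    rw [contDiff_pi]
    intro _
    unfold g
    apply ContDiff.div
    · fun_prop
    · fun_prop
    · intro v
      positivity
  ψ_smooth := by
    apply ContMDiff.contMDiffOn
    rw [← modelWithCornersSelf_prod, chartedSpaceSelf_prod, contMDiff_iff_contDiff]
    rw [contDiff_pi]
    intro i
    unfold g
    fin_cases i
    · show ContDiff ℝ ∞ (fun q : ℝ × EuclideanSpace ℝ (Fin 1) =>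
        q.2 0 * ((q.1 * q.2 0 + 2) ^ 2 + 1))
      fun_prop
    · show ContDiff ℝ ∞ (fun q : ℝ × EuclideanSpace ℝ (Fin 1) =>
        q.1 / ((q.1 * q.2 0 + 2) ^ 2 + 1))
      apply ContDiff.div
      · fun_prop
      · fun_prop
      · intro v
        positivity
  maps := by
    intro s _ y
    refine ⟨Set.notMem_empty _, ?_⟩
    show eval _ p₀ = s
    rw [eval_p₀]
    have h := g_ne (s * y 0)
    simp only [Matrix.cons_val_zero, Matrix.cons_val_one]
    have e : y 0 * g (s * y 0) * (s / g (s * y 0)) = s * y 0 := by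
      rw [mul_assoc, mul_comm (g _), div_mul_cancel₀ _ h]
      ring
    rw [e, div_mul_cancel₀ _ h]
  left_inv := by
    intro v _
    have h := g_ne (v 0 * v 1)
    have e : (eval v) p₀ * (v 0 / g (v 0 * v 1)) = v 0 * v 1 := by
      rw [eval_p₀]
      generalize g (v 0 * v 1) = G at h ⊢
      field_simp
    show ![(v 0 / g (v 0 * v 1)) * g ((eval v) p₀ * (v 0 / g (v 0 * v 1))),
      (eval v) p₀ / g ((eval v) p₀ * (v 0 / g (v 0 * v 1)))] = v
    rw [e, eval_p₀]
    ext i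
    fin_cases i
    · simp [h]
    · simp [h]
  right_inv := by
    intro s _ y
    have h := g_ne (s * y 0)
    have e : y 0 * g (s * y 0) * (s / g (s * y 0)) = s * y 0 := by
      rw [mul_assoc, mul_comm (g _), div_mul_cancel₀ _ h]
      ring
    ext i
    fin_cases i
    show (y 0 * g (s * y 0)) / g (y 0 * g (s * y 0) * (s / g (s * y 0))) = y 0
    rw [e, mul_div_cancel_right₀ _ h]

theorem Binf_empty : Binf p₀ = ∅ := by
  rw [Set.eq_empty_iff_forall_notMem]
  intro t₀ ht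
  apply ht
  refine ⟨∅, isCompact_empty, 1, one_pos, fun t ht' => ⟨Set.Ioo (t₀ - 1) (t₀ + 1), isOpen_Ioo,
    ht', le_rfl, ⟨triv _⟩⟩⟩

theorem dependent {v w : Fin 2 → ℝ} (h : v 0 * w 1 - v 1 * w 0 = 0) :
    ¬ LinearIndependent ℝ ![v, w] := by
  intro hli
  rw [LinearIndependent.pair_iff] at hli
  have h1 : w 0 • v + (-v 0) • w = 0 := by
    ext i
    fin_cases i
    · simp; ring
    · simp; linarith
  have h2 : w 1 • v + (-v 1) • w = 0 := by
    ext i
    fin_cases i
    · simp; linarith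
    · simp; ring
  obtain ⟨a1, a2⟩ := hli _ _ h1
  obtain ⟨b1, b2⟩ := hli _ _ h2
  have h3 : (1 : ℝ) • v + (1 : ℝ) • w = 0 := by
    ext i
    fin_cases i
    · simp [a1]; linarith
    · simp [b1]; linarith
  exact one_ne_zero (hli _ _ h3).1

/-- the equation of the Milnor curve in the coordinates `u = xy`, `t = f`, multiplied by `t` -/
noncomputable def H (a : Fin 2 → ℝ) (t u : ℝ) : ℝ :=
  (u * g u - a 0 * t) * (g u + u * (2 * (u + 2))) -
    t ^ 3 * (t / g u - a 1) * (2 * (u + 2)) / g u ^ 2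

theorem exists_zero (a : Fin 2 → ℝ) {t : ℝ} (ht : 0 < t) (ht1 : t ≤ 1)
    (hta : t * (10 * (1 + |a 0| + |a 1|)) ≤ 1) :
    ∃ u ∈ Set.Icc (-3 / 2 : ℝ) (-1 / 2), H a t u = 0 := by
  have hcont : ContinuousOn (H a t) (Set.Icc (-3 / 2 : ℝ) (-1 / 2)) := by
    apply Continuous.continuousOn
    unfold H g
    apply Continuous.sub
    · fun_prop
    · apply Continuous.div
      · apply Continuous.mul
        · apply Continuous.mul
          · fun_prop
          · apply Continuous.sub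
            · apply Continuous.div
              · fun_prop
              · fun_prop
              · intro u; positivity
            · fun_prop
        · fun_prop
      · fun_prop
      · intro u; positivity
  have n0 : 0 ≤ t * |a 0| := by positivity
  have n1 : 0 ≤ t * |a 1| := by positivity
  have t3 : t ^ 3 ≤ t := pow_le_of_le_one ht.le ht1 (by norm_num)
  have t4 : t ^ 4 ≤ t := pow_le_of_le_one ht.le ht1 (by norm_num)
  have t4p : 0 < t ^ 4 := by positivity
  have P1 : |t * a 0| ≤ 1 / 10 := by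
    rw [abs_mul, abs_of_pos ht]; linarith
  have Q1 : |t ^ 3 * a 1| ≤ 1 / 10 := by
    rw [abs_mul, abs_of_pos (by positivity)]
    have : t ^ 3 * |a 1| ≤ t * |a 1| := mul_le_mul_of_nonneg_right t3 (abs_nonneg _)
    linarith
  rw [abs_le] at P1 Q1
  have h1 : 0 ≤ H a t (-3 / 2) := by
    have e : H a t (-3 / 2) = 15 / 32 + (t * a 0) / 4 - (64 / 125) * t ^ 4 +
        (16 / 25) * (t ^ 3 * a 1) := by
      unfold H g; ring
    rw [e]
    linarith [P1.1, Q1.1]
  have h2 : H a t (-1 / 2) ≤ 0 := by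
    have e : H a t (-1 / 2) = -(91 / 32) - 7 / 4 * (t * a 0) - (192 / 2197) * t ^ 4 +
        (48 / 169) * (t ^ 3 * a 1) := by
      unfold H g; ring
    rw [e]
    linarith [P1.1, Q1.2]
  have := intermediate_value_Icc' (by norm_num) hcont
  obtain ⟨u, hu, hu0⟩ := this ⟨h2, h1⟩
  exact ⟨u, hu, hu0⟩

theorem milnor_point (a : Fin 2 → ℝ) {t u : ℝ} (ht : 0 < t) (hu : H a t u = 0) :
    ![u * g u / t, t / g u] ∈ Milnor p₀ a ∧ eval ![u * g u / t, t / g u] p₀ = t := by
  have hg := g_ne u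
  have huv : u * g u / t * (t / g u) = u := by
    generalize g u = G at hg
    field_simp
  constructor
  · apply dependent
    simp only [Pi.sub_apply, eval_p₀_x, eval_p₀_y, Matrix.cons_val_zero, Matrix.cons_val_one, huv]
    have h2 : t * ((t / g u * (2 * (u + 2) * (t / g u))) * (t / g u - a 1) -
        (g u + t / g u * (2 * (u + 2) * (u * g u / t))) * (u * g u / t - a 0)) = 0 := by
      have e : t * ((t / g u * (2 * (u + 2) * (t / g u))) * (t / g u - a 1) -
        (g u + t / g u * (2 * (u + 2) * (u * g u / t))) * (u * g u / t - a 0)) = - H a t u := by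
        unfold H
        generalize g u = G at hg
        field_simp
        ring
      rw [e, hu, neg_zero]
    exact (mul_eq_zero.mp h2).resolve_left ht.ne'
  · rw [eval_p₀]
    simp only [Matrix.cons_val_zero, Matrix.cons_val_one, huv]
    exact div_mul_cancel₀ _ hg

theorem zero_mem_S (a : Fin 2 → ℝ) : (0 : ℝ) ∈ S p₀ a := by
  have hC : 0 < 10 * (1 + |a 0| + |a 1|) := by positivity
  have hC1 : 1 ≤ 10 * (1 + |a 0| + |a 1|) := by
    have := abs_nonneg (a 0)
    have := abs_nonneg (a 1)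
    linarith
  set Cc : ℝ := 10 * (1 + |a 0| + |a 1|) with hCc
  let t : ℕ → ℝ := fun j => 1 / (Cc + j)
  have ht : ∀ j, 0 < t j := fun j => by
    have : (0 : ℝ) ≤ j := Nat.cast_nonneg j
    simp only [t]; positivity
  have ht1 : ∀ j, t j ≤ 1 := fun j => by
    have : (0 : ℝ) ≤ j := Nat.cast_nonneg j
    simp only [t]
    rw [div_le_one (by positivity)]
    linarith
  have hta : ∀ j, t j * Cc ≤ 1 := fun j => by
    have : (0 : ℝ) ≤ j := Nat.cast_nonneg j
    simp only [t]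
    rw [one_div, inv_mul_le_iff₀ (by positivity)]
    linarith
  choose u hu hu0 using fun j => exists_zero a (ht j) (ht1 j) (hta j)
  refine ⟨fun j => ![u j * g (u j) / t j, t j / g (u j)], fun j => (milnor_point a (ht j) (hu0 j)).1,
    ?_, ?_⟩
  · have hlow : ∀ j : ℕ, (j : ℝ) / 2 ≤ ‖(![u j * g (u j) / t j, t j / g (u j)] : Fin 2 → ℝ)‖ := by
      intro j
      refine le_trans ?_ (norm_le_pi_norm _ 0)
      simp only [Matrix.cons_val_zero]
      rw [Real.norm_eq_abs, abs_div, abs_mul, abs_of_pos (ht j), abs_of_pos (g_pos _)]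
      have hub : 1 / 2 ≤ |u j| := by
        rw [abs_of_neg (by linarith [(hu j).2])]
        linarith [(hu j).2]
      have hgb : 1 ≤ g (u j) := by
        unfold g; nlinarith [sq_nonneg (u j + 2)]
      have h1 : 1 / 2 ≤ |u j| * g (u j) := by nlinarith
      have h2 : (j : ℝ) ≤ 1 / t j := by
        simp only [t, one_div_one_div]
        linarith
      rw [div_eq_mul_one_div (|u j| * g (u j))]
      have hj : (0 : ℝ) ≤ j := Nat.cast_nonneg j
      nlinarith
    apply tendsto_atTop_mono hlow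
    exact tendsto_natCast_atTop_atTop.atTop_div_const (by norm_num)
  · have : (fun j => eval (![u j * g (u j) / t j, t j / g (u j)] : Fin 2 → ℝ) p₀) = t := by
      funext j
      exact (milnor_point a (ht j) (hu0 j)).2
    rw [this]
    have h1 : Tendsto (fun j : ℕ => Cc + (j : ℝ)) atTop atTop :=
      tendsto_atTop_add_const_left _ _ tendsto_natCast_atTop_atTop
    exact h1.const_div_atTop 1

/-- For `f(x,y) = y ((xy+2)^2 + 1)` one has `0 ∈ S_∞(f)` but `B_∞(f) = ∅`. -/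
theorem result : (0 : ℝ) ∈ Sinf p₀ ∧ Binf p₀ = ∅ ∧ Binf p₀ ≠ Sinf p₀ := by
  have h : (0 : ℝ) ∈ Sinf p₀ := Set.mem_iInter.mpr zero_mem_S
  refine ⟨h, Binf_empty, fun he => ?_⟩
  rw [← he, Binf_empty] at h
  exact h

end Pool.Agent.Results.MP_025584_ag.TrivialAtInfinity
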